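import Pool.Agent.K1H44.BC.Plan

set_option autoImplicit false

/-! Project BC, piece POW: `k!` is not a `k`-th power. -/

namespace Pool.Agent.K1H37.BC

open Pool.Agent.K1H44.BC

theorem t_POW : S_POW := by
  intro k m hk h
  have hk0 : k ≠ 0 := by omega
  have hm : m ≠ 0 := by
    rintro rfl
    rw [zero_pow hk0] at h
    exact Nat.factorial_ne_zero k h.symm
  have h1 : padicValNat 2 (m ^ k) = k * padicValNat 2 m := padicValNat.pow _ _
  have h2 : padicValNat 2 (Nat.factorial k) < k := padicValNat_factorial_lt_of_ne_zero 2 hk0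
  have h3 : 1 ≤ padicValNat 2 (Nat.factorial k) :=
    one_le_padicValNat_of_dvd (Nat.factorial_ne_zero k) (Nat.dvd_factorial (by norm_num) hk)
  rw [← h, h1] at h2 h3
  rcases Nat.eq_zero_or_pos (padicValNat 2 m) with h0 | h0
  · rw [h0] at h3
    simp at h3
  · have := Nat.le_mul_of_pos_right k h0
    omega

end Pool.Agent.K1H37.BC
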